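import Pool.Agent.H68.TS.Cov
import Pool.Graph.R_seed8.Helper969.TB14

set_option autoImplicit false

/-! The first families: twice an odd number, and eight. -/

namespace Pool.Agent.H68.TS

open Pool.Agent.Helper969.TB (oddData_all BV BW BL BV_exc BW_exc BV_inr BW_inr BV_t BW_t BV_f BW_f
  BL_inj btri blast badj fold_rev foldb_rev XX)

section base

variable {G Q : Type} [AddCommGroup G] {m : ℕ} {P : Q → ℕ → G} {q0 : Q}

noncomputable def LB (m : ℕ) (P : Q → ℕ → G) (q0 : Q) (k : (Q × Bool × Bool) ⊕ Unit) (i j : ℕ) :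
    G × Bool :=
  (BV m P q0 k i + BV m P q0 k j, xor (BW m q0 k i) (BW m q0 k j))

theorem LB_eq (k : (Q × Bool × Bool) ⊕ Unit) (i j : ℕ) :
    LB m P q0 k i j = BL m P q0 k (BV m P q0 k i, BW m q0 k i) j := by
  simp only [LB, BL, Prod.mk.injEq]
  exact ⟨add_comm _ _, Bool.xor_comm _ _⟩

open Classical in
noncomputable def cjB (q0 : Q) (k : (Q × Bool × Bool) ⊕ Unit) : (Q × Bool × Bool) ⊕ Unit :=
  if k = Sum.inl (q0, false, false) then Sum.inr () else
    if k = Sum.inr () then Sum.inl (q0, false, false) else k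

theorem cjB_cjB (k : (Q × Bool × Bool) ⊕ Unit) : cjB q0 (cjB q0 k) = k := by
  unfold cjB
  by_cases h1 : k = Sum.inl (q0, false, false)
  · subst h1
    simp
  · by_cases h2 : k = Sum.inr ()
    · subst h2
      simp
    · simp [h1, h2]

theorem LB_cen (k : (Q × Bool × Bool) ⊕ Unit) (i j : ℕ) (hi : i < 2 * m) (hj : j < 2 * m) :
    LB m P q0 (cjB q0 k) (2 * m - 1 - i) (2 * m - 1 - j) = LB m P q0 k i j := by
  unfold cjB
  by_cases h1 : k = Sum.inl (q0, false, false)
  · subst h1
    have e1 : 2 * m - 1 - (2 * m - 1 - i) = i := by omega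
    have e2 : 2 * m - 1 - (2 * m - 1 - j) = j := by omega
    rw [if_pos rfl]
    simp only [LB, BV_inr, BW_inr, BV_exc, BW_exc, e1, e2]
  · by_cases h2 : k = Sum.inr ()
    · subst h2
      rw [if_neg (by simp), if_pos rfl]
      simp only [LB, BV_inr, BW_inr, BV_exc, BW_exc]
    · rw [if_neg h1, if_neg h2]
      rcases k with ⟨q, s, t⟩ | ⟨⟩
      · cases t
        · have hex : ¬ (q = q0 ∧ s = false) := by
            rintro ⟨rfl, rfl⟩
            exact h1 rfl
          simp only [LB, BV_f q s _ hex, BW_f q s _ hex, fold_rev m i hi, fold_rev m j hj,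
            foldb_rev m i _ hi, foldb_rev m j _ hj, Prod.mk.injEq, true_and]
          generalize Pool.Agent.Helper969.TB.foldb m (XX s false) i = x
          generalize Pool.Agent.Helper969.TB.foldb m (XX s false) j = y
          cases x <;> cases y <;> rfl
        · simp only [LB, BV_t, BW_t, fold_rev m i hi, fold_rev m j hj,
            foldb_rev m i _ hi, foldb_rev m j _ hj, Prod.mk.injEq, true_and]
          generalize Pool.Agent.Helper969.TB.foldb m (XX s true) i = x
          generalize Pool.Agent.Helper969.TB.foldb m (XX s true) j = y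
          cases x <;> cases y <;> rfl
      · exact absurd rfl h2

end base

theorem base_data (m : ℕ) (hm : m % 2 = 1) (hm3 : 3 ≤ m) : SymData (2 * m) := by
  classical
  obtain ⟨G, iG, iF, Q, iQ, P, q0, hG, hQ, hD⟩ := oddData_all m hm hm3
  have hinj := hD.inj
  have htri := hD.tri
  have hlast := hD.last
  have hpair := hD.pair
  have hdiff := hD.diff
  rw [hG] at hinj htri hlast hpair hdiff
  have hcard : Fintype.card (G × Bool) = 2 * m := by
    rw [Fintype.card_prod, hG, Fintype.card_bool, Nat.mul_comm]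
  -- every group element is the value at some index
  have hidx : ∀ (k : (Q × Bool × Bool) ⊕ Unit) (x : G × Bool), ∃ i, i < 2 * m ∧
      (BV m P q0 k i, BW m q0 k i) = x := by
    intro k x
    have h1 : Function.Injective fun i : Fin (2 * m) => (BV m P q0 k i, BW m q0 k i) := by
      intro a b hab
      refine Fin.ext (BL_inj (P := P) (q0 := q0) hinj hm k (0, false) a b a.isLt b.isLt ?_)
      simp only [Prod.mk.injEq] at hab
      simp only [BL, hab.1, hab.2]
    have h2 : Function.Bijective fun i : Fin (2 * m) => (BV m P q0 k i, BW m q0 k i) := by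
      rw [Fintype.bijective_iff_injective_and_card]
      exact ⟨h1, by rw [hcard, Fintype.card_fin]⟩
    obtain ⟨i, hi⟩ := h2.2 x
    exact ⟨i, i.isLt, hi⟩
  refine ⟨G × Bool, (Q × Bool × Bool) ⊕ Unit, inferInstance, inferInstance, LB m P q0, cjB q0,
    Sum.inl (q0, false, true), Sum.inl (q0, true, true),
    by omega, by omega, hcard, ?_, by simp, ?_⟩
  · rw [Fintype.card_sum, Fintype.card_prod, Fintype.card_prod, Fintype.card_bool,
      Fintype.card_unit]
    omega
  · exact
      { inj := by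
          intro k i a b _ ha hb hab
          rw [LB_eq, LB_eq] at hab
          exact BL_inj hinj hm k _ a b ha hb hab
        sym := by
          intro k i j _ _
          simp only [LB, Prod.mk.injEq]
          exact ⟨add_comm _ _, Bool.xor_comm _ _⟩
        cen := fun k i j hi hj => LB_cen k i j hi hj
        cjcj := cjB_cjB
        cj1 := by simp [cjB]
        cj2 := by simp [cjB]
        tri := by
          intro a b c hab hbc hac
          obtain ⟨k, x, J, hJ, h0, h1, h2⟩ := btri hm hm3 htri hlast hpair a b c hab hbc hac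
          obtain ⟨i, hi, rfl⟩ := hidx k x
          exact ⟨k, i, J, hi, hJ, by rw [LB_eq, h0], by rw [LB_eq, h1], by rw [LB_eq, h2]⟩
        last := by
          intro a b hab
          obtain ⟨k, x, h0, h1⟩ := blast hm hm3 hlast a b hab
          obtain ⟨i, hi, rfl⟩ := hidx k x
          exact ⟨k, i, hi, by rw [LB_eq, h0], by rw [LB_eq, h1]⟩
        adj1 := by
          intro a b hab
          obtain ⟨x, J, hJ, h0, h1⟩ := badj hm hm3 hpair hdiff false a b hab
          obtain ⟨i, hi, rfl⟩ := hidx (Sum.inl (q0, false, true)) x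
          exact ⟨i, J, hi, hJ, by rw [LB_eq, h0], by rw [LB_eq, h1]⟩
        adj2 := by
          intro a b hab
          obtain ⟨x, J, hJ, h0, h1⟩ := badj hm hm3 hpair hdiff true a b hab
          obtain ⟨i, hi, rfl⟩ := hidx (Sum.inl (q0, true, true)) x
          exact ⟨i, J, hi, hJ, by rw [LB_eq, h0], by rw [LB_eq, h1]⟩ }

open Pool.Agent.Helper969.TB (P8 P8_inj P8_tri P8_last P8_adj1 P8_adj2)

def c8 (k : Fin 7) : ZMod 8 := (![0, 0, 0, 6, 0, 4, 0] : Fin 7 → ZMod 8) k

def cj8 (k : Fin 7) : Fin 7 := (![0, 1, 3, 2, 5, 4, 6] : Fin 7 → Fin 7) k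

def L8 (k : Fin 7) (i j : ℕ) : ZMod 8 := P8 k i + P8 k j + c8 k

theorem L8_cen : ∀ k : Fin 7, ∀ i j : Fin 8, L8 (cj8 k) (7 - i) (7 - j) = L8 k i j := by decide

theorem P8_surj : ∀ k : Fin 7, ∀ g : ZMod 8, ∃ i : Fin 8, P8 k i + c8 k = g := by decide

theorem data8 : SymData 8 := by
  have key : ∀ k : Fin 7, ∀ g : ZMod 8, ∃ i, i < 8 ∧ ∀ j, L8 k i j = g + P8 k j := by
    intro k g
    obtain ⟨i, hi⟩ := P8_surj k g
    exact ⟨i, i.isLt, fun j => by rw [← hi]; unfold L8; ring⟩
  refine ⟨ZMod 8, Fin 7, inferInstance, inferInstance, L8, cj8, 0, 1, rfl, by norm_num,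
    by simp [ZMod.card], by simp, by decide, ?_⟩
  refine ⟨?_, ?_, ?_, by decide, by decide, by decide, ?_, ?_, ?_, ?_⟩
  · intro k i a b _ ha hb hab
    have h1 : P8 k a = P8 k b := by
      unfold L8 at hab
      exact add_left_cancel (add_right_cancel hab)
    have := P8_inj k ⟨a, ha⟩ ⟨b, hb⟩ h1
    simpa using this
  · intro k i j _ _
    unfold L8; ring
  · intro k i j hi hj
    have := L8_cen k ⟨i, hi⟩ ⟨j, hj⟩
    simpa using this
  · intro a b c hab hbc hac
    obtain ⟨k, j, h1, h2⟩ := P8_tri (b - a) (c - b) (sub_ne_zero.2 hab.symm)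
      (sub_ne_zero.2 hbc.symm) (by
        intro h
        apply hac
        have : c - a = 0 := by rw [← h]; ring
        exact (sub_eq_zero.1 this).symm)
    obtain ⟨i, hi, hL⟩ := key k (a - P8 k j)
    refine ⟨k, i, j, hi, by have := j.isLt; omega, by rw [hL]; ring, ?_, ?_⟩
    · have : P8 k (j + 1) = b - a + P8 k j := by rw [← h1]; ring
      rw [hL, this]; ring
    · have h3 : P8 k (j + 1) = b - a + P8 k j := by rw [← h1]; ring
      have : P8 k (j + 2) = c - b + P8 k (j + 1) := by rw [← h2]; ring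
      rw [hL, this, h3]; ring
  · intro a b hab
    obtain ⟨k, h⟩ := P8_last (b - a) (sub_ne_zero.2 hab.symm)
    obtain ⟨i, hi, hL⟩ := key k (a - P8 k 6)
    refine ⟨k, i, hi, ?_, ?_⟩
    · rw [hL]
      change a - P8 k 6 + P8 k 6 = a
      ring
    · rw [hL]
      change a - P8 k 6 + P8 k 7 = b
      have : P8 k 7 = b - a + P8 k 6 := by rw [← h]; ring
      rw [this]; ring
  · intro a b hab
    obtain ⟨j, h⟩ := P8_adj1 (b - a) (sub_ne_zero.2 hab.symm)
    obtain ⟨i, hi, hL⟩ := key 0 (a - P8 0 j)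
    refine ⟨i, j, hi, by have := j.isLt; omega, by rw [hL]; ring, ?_⟩
    have : P8 0 (j + 1) = b - a + P8 0 j := by rw [← h]; ring
    rw [hL, this]; ring
  · intro a b hab
    obtain ⟨j, h⟩ := P8_adj2 (b - a) (sub_ne_zero.2 hab.symm)
    obtain ⟨i, hi, hL⟩ := key 1 (a - P8 1 j)
    refine ⟨i, j, hi, by have := j.isLt; omega, by rw [hL]; ring, ?_⟩
    have : P8 1 (j + 1) = b - a + P8 1 j := by rw [← h]; ring
    rw [hL, this]; ring

theorem data_all (n : ℕ) (hn : n % 2 = 0) (h6 : 6 ≤ n) : SymData n := by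
  induction n using Nat.strong_induction_on with
  | _ n ih =>
    obtain ⟨m, rfl⟩ : ∃ m, n = 2 * m := ⟨n / 2, by omega⟩
    rcases Nat.mod_two_eq_zero_or_one m with h | h
    · by_cases h4 : m = 4
      · subst h4; exact data8
      · by_cases h6' : 6 ≤ m
        · exact double m (ih m (by omega) h h6')
        · omega
    · exact base_data m h (by omega)

end Pool.Agent.H68.TS
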