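import Pool.Agent.H68.TS.Fam

set_option autoImplicit false

/-! Every ordered triad occurs in the doubled family. -/

namespace Pool.Agent.H68.TS

variable {S K : Type} {n : ℕ} {L : K → ℕ → ℕ → S} {cj : K → K} {b1 b2 : K}
  {gam : K → ℕ → ℕ → ℕ}

def Cov3 (n : ℕ) (L : K → ℕ → ℕ → S) (b1 : K) (gam : K → ℕ → ℕ → ℕ) (x y z : S × Fin 2) : Prop :=
  ∃ k I J, I < 2 * n ∧ J + 2 < 2 * n ∧ L2 n L b1 gam k I J = x ∧
      L2 n L b1 gam k I (J + 1) = y ∧ L2 n L b1 gam k I (J + 2) = z

theorem covF {k : K} (hk : k ≠ b1) (t : Bool) {i j0 j1 j2 : ℕ} (J : ℕ) {a b c : S}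
    {α β γ : Fin 2} (hi : i < n) (hJ : J + 2 < 2 * n) (u0 : fold n J = j0)
    (u1 : fold n (J + 1) = j1) (u2 : fold n (J + 2) = j2)
    (h0 : L k i j0 = a) (h1 : L k i j1 = b) (h2 : L k i j2 = c)
    (hp : (gam k i j0 + gam k i j1 + eT n t J + eT n t (J + 1)) % 2 = (α.val + β.val) % 2)
    (hq : (gam k i j1 + gam k i j2 + eT n t (J + 1) + eT n t (J + 2)) % 2 =
      (β.val + γ.val) % 2) : Cov3 n L b1 gam (a, α) (b, β) (c, γ) := by
  obtain ⟨I, hI, h0', h1', h2'⟩ := hit3 (specF n t) hi u0 u1 u2 h0 h1 h2 hp hq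
  exact ⟨Sum.inl (⟨k, hk⟩, t), I, J, hI, hJ, h0', h1', h2'⟩

theorem covA {i j0 j1 j2 : ℕ} (J : ℕ) {a b c : S}
    {α β γ : Fin 2} (hi : i < n) (hJ : J + 2 < 2 * n) (u0 : fold n J = j0)
    (u1 : fold n (J + 1) = j1) (u2 : fold n (J + 2) = j2)
    (h0 : L b1 i j0 = a) (h1 : L b1 i j1 = b) (h2 : L b1 i j2 = c)
    (hp : (v n i j0 + v n i j1 + eT n false J + eT n false (J + 1)) % 2 = (α.val + β.val) % 2)
    (hq : (v n i j1 + v n i j2 + eT n false (J + 1) + eT n false (J + 2)) % 2 =
      (β.val + γ.val) % 2) : Cov3 n L b1 gam (a, α) (b, β) (c, γ) := by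
  obtain ⟨I, hI, h0', h1', h2'⟩ := hit3 (specF n false) hi u0 u1 u2 h0 h1 h2 hp hq
  exact ⟨Sum.inr none, I, J, hI, hJ, h0', h1', h2'⟩

theorem covB (hn : n % 2 = 0) {i j0 j1 j2 : ℕ} (J : ℕ) {a b c : S}
    {α β γ : Fin 2} (hi : i < n) (hJ : J + 2 < 2 * n) (u0 : uB J = j0)
    (u1 : uB (J + 1) = j1) (u2 : uB (J + 2) = j2)
    (h0 : L b1 i j0 = a) (h1 : L b1 i j1 = b) (h2 : L b1 i j2 = c)
    (hp : (eB J + eB (J + 1)) % 2 = (α.val + β.val) % 2)
    (hq : (eB (J + 1) + eB (J + 2)) % 2 =
      (β.val + γ.val) % 2) : Cov3 n L b1 gam (a, α) (b, β) (c, γ) := by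
  obtain ⟨I, hI, h0', h1', h2'⟩ := hit3 (g := fun _ _ => 0) (specB hn) hi u0 u1 u2 h0 h1 h2
    (by simpa using hp) (by simpa using hq)
  exact ⟨Sum.inr (some false), I, J, hI, hJ, h0', h1', h2'⟩

theorem covC (hn : n % 2 = 0) (h6 : 6 ≤ n) {i j0 j1 j2 : ℕ} (J : ℕ) {a b c : S}
    {α β γ : Fin 2} (hi : i < n) (hJ : J + 2 < 2 * n) (u0 : uC n J = j0)
    (u1 : uC n (J + 1) = j1) (u2 : uC n (J + 2) = j2)
    (h0 : L b1 i j0 = a) (h1 : L b1 i j1 = b) (h2 : L b1 i j2 = c)
    (hp : (gC n i j0 + gC n i j1 + eC n J + eC n (J + 1)) % 2 = (α.val + β.val) % 2)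
    (hq : (gC n i j1 + gC n i j2 + eC n (J + 1) + eC n (J + 2)) % 2 =
      (β.val + γ.val) % 2) : Cov3 n L b1 gam (a, α) (b, β) (c, γ) := by
  obtain ⟨I, hI, h0', h1', h2'⟩ := hit3 (specC hn h6) hi u0 u1 u2 h0 h1 h2 hp hq
  exact ⟨Sum.inr (some true), I, J, hI, hJ, h0', h1', h2'⟩

/-- the same entries in the reversed row of the conjugate square -/
theorem conj_at (D : SymProp n L cj b1 b2) {k : K} {i j j' : ℕ} {a : S} (hi : i < n) (hj : j < n)
    (hj' : n - 1 - j = j') (h : L k i j = a) : L (cj k) (n - 1 - i) j' = a := by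
  rw [← hj', D.cen k i j hi hj, h]

theorem conj_b1 (D : SymProp n L cj b1 b2) {i j j' : ℕ} {a : S} (hi : i < n) (hj : j < n)
    (hj' : n - 1 - j = j') (h : L b1 i j = a) : L b1 (n - 1 - i) j' = a := by
  have := conj_at D hi hj hj' h
  rwa [D.cj1] at this

theorem cj_ne (D : SymProp n L cj b1 b2) {k : K} (hk : k ≠ b1) : cj k ≠ b1 := by
  intro h
  apply hk
  rw [← D.cjcj k, h, D.cj1]

theorem dist_ne (D : SymProp n L cj b1 b2) (hg : GamProp n cj gam) (hn : n % 2 = 0)
    {k : K} (hk : k ≠ b1) {i j : ℕ} (hi : i < n) (hj : j + 2 < n) {a b c : S}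
    (h0 : L k i j = a) (h1 : L k i (j + 1) = b) (h2 : L k i (j + 2) = c) (α β γ : Fin 2) :
    Cov3 n L b1 gam (a, α) (b, β) (c, γ) := by
  have g0 := hg.2 k i j hi (by omega)
  have g1 := hg.2 k i (j + 1) hi (by omega)
  have g2 := hg.2 k i (j + 2) hi (by omega)
  have c0 := conj_at D hi (by omega) rfl h0
  have c1 := conj_at D hi (by omega) rfl h1
  have c2 := conj_at D hi (by omega) rfl h2
  have hk' := cj_ne D hk
  set p := gam k i j + gam k i (j + 1) with hp
  set q := gam k i (j + 1) + gam k i (j + 2) with hq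
  set p' := gam (cj k) (n - 1 - i) (n - 1 - j) + gam (cj k) (n - 1 - i) (n - 1 - (j + 1)) with hp'
  set q' := gam (cj k) (n - 1 - i) (n - 1 - (j + 1)) + gam (cj k) (n - 1 - i) (n - 1 - (j + 2))
    with hq'
  have fwd : ∀ t, (p + eT n t j + eT n t (j + 1)) % 2 = (α.val + β.val) % 2 →
      (q + eT n t (j + 1) + eT n t (j + 2)) % 2 = (β.val + γ.val) % 2 →
      Cov3 n L b1 gam (a, α) (b, β) (c, γ) := by
    intro t e1 e2
    exact covF hk t j hi (by omega) (fold_lo (by omega)) (fold_lo (by omega)) (fold_lo (by omega))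
      h0 h1 h2 e1 e2
  have bwd : ∀ t, (p' + eT n t (n + j) + eT n t (n + j + 1)) % 2 = (α.val + β.val) % 2 →
      (q' + eT n t (n + j + 1) + eT n t (n + j + 2)) % 2 = (β.val + γ.val) % 2 →
      Cov3 n L b1 gam (a, α) (b, β) (c, γ) := by
    intro t e1 e2
    exact covF hk' t (n + j) (by omega) (by omega) (fold_hi (by omega) (by omega))
      (fold_hi (by omega) (by omega)) (fold_hi (by omega) (by omega)) c0 c1 c2 e1 e2
  have a0 := α.isLt
  have a1 := β.isLt
  have a2 := γ.isLt
  have f1 := fwd false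
  have f2 := fwd true
  have f3 := bwd false
  have f4 := bwd true
  rw [eF_lo (by omega), eF_lo (by omega), eF_lo (by omega)] at f1
  rw [eT_lo (by omega), eT_lo (by omega), eT_lo (by omega)] at f2
  rw [eF_hi (by omega), eF_hi (by omega), eF_hi (by omega)] at f3
  rw [eT_hi (by omega), eT_hi (by omega), eT_hi (by omega)] at f4
  by_cases d1 : (p + α.val + β.val) % 2 = 0
  · by_cases d2 : (q + β.val + γ.val) % 2 = 0
    · exact f1 (by omega) (by omega)
    · rcases Nat.mod_two_eq_zero_or_one j with h | h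
      · exact f4 (by omega) (by omega)
      · exact f2 (by omega) (by omega)
  · by_cases d2 : (q + β.val + γ.val) % 2 = 0
    · rcases Nat.mod_two_eq_zero_or_one j with h | h
      · exact f2 (by omega) (by omega)
      · exact f4 (by omega) (by omega)
    · exact f3 (by omega) (by omega)

theorem dist_b1 (D : SymProp n L cj b1 b2) (hn : n % 2 = 0) (h6 : 6 ≤ n)
    {i j : ℕ} (hi : i < n) (hj : j + 2 < n) {a b c : S}
    (h0 : L b1 i j = a) (h1 : L b1 i (j + 1) = b) (h2 : L b1 i (j + 2) = c) (α β γ : Fin 2) :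
    Cov3 n L b1 gam (a, α) (b, β) (c, γ) := by
  have c0 := conj_b1 D hi (by omega) rfl h0
  have c1 := conj_b1 D hi (by omega) rfl h1
  have c2 := conj_b1 D hi (by omega) rfl h2
  have hv := v_tri h6 hn hi hj
  have a0 := α.isLt
  have a1 := β.isLt
  have a2 := γ.isLt
  unfold Good at hv
  by_cases d1 : (α.val + β.val) % 2 = 0 ∧ (β.val + γ.val) % 2 = 0
  · rcases Nat.mod_two_eq_zero_or_one j with h | h
    · refine covB hn (2 * j + 2) hi (by omega) ?_ ?_ ?_ h0 h1 h2 ?_ ?_ <;>
        first | (unfold uB; omega) | (unfold eB; omega)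
    · refine covB hn (2 * j + 1) hi (by omega) ?_ ?_ ?_ h0 h1 h2 ?_ ?_ <;>
        first | (unfold uB; omega) | (unfold eB; omega)
  · by_cases d2 : (α.val + β.val) % 2 = (v n i j + v n i (j + 1)) % 2 ∧
        (β.val + γ.val) % 2 = (v n i (j + 1) + v n i (j + 2)) % 2
    · refine covA j hi (by omega) (fold_lo (by omega)) (fold_lo (by omega)) (fold_lo (by omega))
        h0 h1 h2 ?_ ?_
      · rw [eF_lo (by omega), eF_lo (by omega)]; omega
      · rw [eF_lo (by omega), eF_lo (by omega)]; omega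
    · by_cases d3 : (α.val + β.val) % 2 =
          (v n (n - 1 - i) (n - 1 - j) + v n (n - 1 - i) (n - 1 - (j + 1))) % 2 ∧
          (β.val + γ.val) % 2 =
          (v n (n - 1 - i) (n - 1 - (j + 1)) + v n (n - 1 - i) (n - 1 - (j + 2))) % 2
      · refine covA (n + j) (by omega) (by omega) (fold_hi (by omega) (by omega))
          (fold_hi (by omega) (by omega)) (fold_hi (by omega) (by omega)) c0 c1 c2 ?_ ?_
        · rw [eF_hi (by omega), eF_hi (by omega)]; omega
        · rw [eF_hi (by omega), eF_hi (by omega)]; omega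
      · rcases Nat.mod_two_eq_zero_or_one j with h | h
        · refine covC hn h6 (2 * j + 1) hi (by omega) (j0 := j) ?_ (uC_mid (by omega) (by omega)
            (by omega)) (uC_mid (by omega) (by omega) (by omega)) h0 h1 h2 ?_ ?_
          · rcases Nat.eq_zero_or_pos j with h3 | h3
            · rw [uC_lo (by omega), h3]
            · exact uC_mid (by omega) (by omega) (by omega)
          · rw [eC_mid (by omega) (by omega), eC_mid (by omega) (by omega)]
            unfold gC; omega
          · rw [eC_mid (by omega) (by omega), eC_mid (by omega) (by omega)]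
            unfold gC; omega
        · refine covC hn h6 (2 * j + 2) hi (by omega) (uC_mid (by omega) (by omega)
            (by omega)) (uC_mid (by omega) (by omega) (by omega)) (j2 := j + 2) ?_ h0 h1 h2 ?_ ?_
          · by_cases h3 : j + 3 = n
            · rw [uC_hi (by omega) (by omega)]; omega
            · exact uC_mid (by omega) (by omega) (by omega)
          · rw [eC_mid (by omega) (by omega), eC_mid (by omega) (by omega)]
            unfold gC; omega
          · rw [eC_mid (by omega) (by omega), eC_mid (by omega) (by omega)]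
            unfold gC; omega

/-- target `(a, b, b)` -/
theorem last3 (D : SymProp n L cj b1 b2) (hn : n % 2 = 0) (h6 : 6 ≤ n)
    (a b : S) (hab : a ≠ b) (α β γ : Fin 2) (hβ : β ≠ γ) :
    Cov3 n L b1 gam (a, α) (b, β) (b, γ) := by
  obtain ⟨k, i, hi, ha, hb⟩ := D.last a b hab
  have a0 := α.isLt
  have a1 := β.isLt
  have a2 := γ.isLt
  have a3 : β.val ≠ γ.val := fun h => hβ (Fin.ext h)
  by_cases hk : k = b1
  · subst hk
    by_cases d : (α.val + β.val) % 2 = (v n i (n - 2) + v n i (n - 1)) % 2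
    · refine covA (n - 2) hi (by omega) (fold_lo (by omega)) (j1 := n - 1) ?_ (j2 := n - 1) ?_
        ha hb hb ?_ ?_
      · rw [fold_lo (by omega)]; omega
      · exact fold_hi (by omega) (by omega)
      · rw [eF_lo (by omega), eF_lo (by omega)]; omega
      · rw [eF_lo (by omega), eF_hi (by omega)]; omega
    · have hv := v0 (n := n) (i := n - 1 - i) (by omega) (by omega)
      refine covC hn h6 (2 * n - 3) hi (by omega) (j0 := n - 2) (uC_mid (by omega) (by omega)
        (by omega)) (j1 := n - 1) (uC_hi (by omega) (by omega)) (j2 := n - 1)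
        (uC_hi (by omega) (by omega)) ha hb hb ?_ ?_
      · rw [eC_mid (by omega) (by omega), eC_mid (by omega) (by omega)]
        unfold gC
        have e1 : n - 1 - (n - 2) = 1 := by omega
        have e2 : n - 1 - (n - 1) = 0 := by omega
        rw [e1, e2]
        omega
      · rw [eC_mid (by omega) (by omega), eC_end (by omega)]
        omega
  · have h := fun t : Bool => covF (gam := gam) hk t (n - 2) (i := i) (α := α) (β := β) (γ := γ)
      hi (by omega) (j0 := n - 2) (fold_lo (by omega)) (j1 := n - 1)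
      (by rw [fold_lo (by omega)]; omega) (j2 := n - 1) (fold_hi (by omega) (by omega)) ha hb hb
    have h1 := h false
    have h2 := h true
    rw [eF_lo (by omega), eF_lo (by omega), eF_hi (by omega)] at h1
    rw [eT_lo (by omega), eT_lo (by omega), eT_hi (by omega)] at h2
    by_cases d : (α.val + β.val) % 2 = (gam k i (n - 2) + gam k i (n - 1)) % 2
    · exact h1 (by omega) (by omega)
    · exact h2 (by omega) (by omega)

/-- target `(a, b, a)` -/
theorem aba3 (D : SymProp n L cj b1 b2) (hn : n % 2 = 0) (h6 : 6 ≤ n)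
    (a b : S) (hab : a ≠ b) (α β γ : Fin 2) (hα : α ≠ γ) :
    Cov3 n L b1 gam (a, α) (b, β) (a, γ) := by
  obtain ⟨i, j, hi, hj, ha, hb⟩ := D.adj1 a b hab
  have a0 := α.isLt
  have a1 := β.isLt
  have a2 := γ.isLt
  have a3 : α.val ≠ γ.val := fun h => hα (Fin.ext h)
  have c0 := conj_b1 D hi (by omega) (j' := n - 2 - j + 1) (by omega) ha
  have c1 := conj_b1 D hi (by omega) (j' := n - 2 - j) (by omega) hb
  rcases Nat.mod_two_eq_zero_or_one j with h | h
  · by_cases d : (α.val + β.val) % 2 = 0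
    · refine covB hn (2 * j) hi (by omega) (j0 := j) ?_ (j1 := j + 1) ?_ (j2 := j) ?_ ha hb ha ?_ ?_
        <;> first | (unfold uB; omega) | (unfold eB; omega)
    · refine covB hn (2 * (n - 2 - j) + 1) (i := n - 1 - i) (by omega) (by omega) ?_ ?_ ?_
        c0 c1 c0 ?_ ?_ <;> first | (unfold uB; omega) | (unfold eB; omega)
  · by_cases d : (α.val + β.val) % 2 = (gC n i j + gC n i (j + 1)) % 2
    · refine covC hn h6 (2 * j) hi (by omega) (j0 := j) (uC_mid (by omega) (by omega) (by omega))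
        (j1 := j + 1) (uC_mid (by omega) (by omega) (by omega)) (j2 := j)
        (uC_mid (by omega) (by omega) (by omega)) ha hb ha ?_ ?_
      · rw [eC_mid (by omega) (by omega), eC_mid (by omega) (by omega)]
        omega
      · rw [eC_mid (by omega) (by omega), eC_mid (by omega) (by omega)]
        omega
    · have e0 : gC n (n - 1 - i) (n - 2 - j + 1) = gC n i j := by
        unfold gC
        have f1 : n - 2 - j + 1 = n - 1 - j := by omega
        have f2 : n - 1 - (n - 1 - i) = i := by omega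
        have f3 : n - 1 - (n - 1 - j) = j := by omega
        rw [f1, f2, f3, Nat.add_comm]
      have e1 : gC n (n - 1 - i) (n - 2 - j) = gC n i (j + 1) := by
        unfold gC
        have f1 : n - 2 - j = n - 1 - (j + 1) := by omega
        have f2 : n - 1 - (n - 1 - i) = i := by omega
        have f3 : n - 1 - (n - 1 - (j + 1)) = j + 1 := by omega
        rw [f1, f2, f3, Nat.add_comm]
      refine covC hn h6 (2 * (n - 2 - j) + 1) (i := n - 1 - i) (by omega) (by omega)
        (uC_mid (by omega) (by omega) (by omega)) (uC_mid (by omega) (by omega) (by omega))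
        (uC_mid (by omega) (by omega) (by omega)) c0 c1 c0 ?_ ?_
      · rw [eC_mid (by omega) (by omega), eC_mid (by omega) (by omega), e0, e1]
        omega
      · rw [eC_mid (by omega) (by omega), eC_mid (by omega) (by omega), e0, e1]
        omega

theorem fin2_ne {x y z : Fin 2} (h1 : x ≠ y) (h2 : y ≠ z) : x = z := by
  revert h1 h2; revert x y z; decide

theorem tri_all (D : SymProp n L cj b1 b2) (hg : GamProp n cj gam) (hn : n % 2 = 0) (h6 : 6 ≤ n)
    (x y z : S × Fin 2) (hxy : x ≠ y) (hyz : y ≠ z) (hxz : x ≠ z) : Cov3 n L b1 gam x y z := by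
  obtain ⟨a, α⟩ := x
  obtain ⟨b, β⟩ := y
  obtain ⟨c, γ⟩ := z
  by_cases hab : a = b
  · subst hab
    have hβ : α ≠ β := fun h => hxy (by rw [h])
    by_cases hbc : a = c
    · subst hbc
      have h1 : β ≠ γ := fun h => hyz (by rw [h])
      exact absurd (by rw [fin2_ne hβ h1]) hxz
    · exact cov_rev D hn h6 (last3 D hn h6 c a (Ne.symm hbc) γ β α hβ.symm)
  · by_cases hbc : b = c
    · subst hbc
      exact last3 D hn h6 a b hab α β γ fun h => hyz (by rw [h])
    · by_cases hac : a = c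
      · subst hac
        exact aba3 D hn h6 a b hab α β γ fun h => hxz (by rw [h])
      · obtain ⟨k, i, j, hi, hj, h0, h1, h2⟩ := D.tri a b c hab hbc hac
        by_cases hk : k = b1
        · subst hk
          exact dist_b1 D hn h6 hi hj h0 h1 h2 α β γ
        · exact dist_ne D hg hn hk hi hj h0 h1 h2 α β γ

theorem last_all [Fintype S] (hS : Fintype.card S = n) (D : SymProp n L cj b1 b2)
    (hn : n % 2 = 0) (h6 : 6 ≤ n) (x y : S × Fin 2) (hxy : x ≠ y) :
    ∃ k I, I < 2 * n ∧ L2 n L b1 gam k I (2 * n - 2) = x ∧ L2 n L b1 gam k I (2 * n - 1) = y := by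
  obtain ⟨a, α⟩ := x
  obtain ⟨b, β⟩ := y
  have a0 := α.isLt
  have a1 := β.isLt
  have e1 : 2 * n - 1 = 2 * n - 2 + 1 := by omega
  rw [e1]
  by_cases hab : a = b
  · subst hab
    have hβ : α.val ≠ β.val := fun h => hxy (by rw [Fin.ext h])
    obtain ⟨i, hi, h⟩ := surj hS D b1 (n - 1) (by omega) a
    obtain ⟨I, hI, h1, h2⟩ := hit2 (g := gC n) (specC hn h6) (J := 2 * n - 2) hi (j0 := n - 1)
      (uC_hi (by omega) (by omega)) (j1 := n - 1) (uC_hi (by omega) (by omega)) h h
      (α := α) (β := β) (by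
        rw [eC_mid (by omega) (by omega), eC_end (by omega)]
        omega)
    exact ⟨Sum.inr (some true), I, hI, h1, h2⟩
  · obtain ⟨k, i, hi, ha, hb⟩ := D.last a b hab
    by_cases hk : k = b1
    · subst hk
      by_cases d : (α.val + β.val) % 2 = 0
      · obtain ⟨I, hI, h1, h2⟩ := hit2 (g := fun _ _ => 0) (specB hn) (J := 2 * n - 2) hi
          (j0 := n - 2) (by unfold uB; omega) (j1 := n - 1) (by unfold uB; omega) ha hb
          (α := α) (β := β) (by unfold eB; omega)
        exact ⟨Sum.inr (some false), I, hI, h1, h2⟩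
      · have c0 := conj_b1 D hi (by omega) (j' := 1) (by omega) ha
        have c1 := conj_b1 D hi (by omega) (j' := 0) (by omega) hb
        have hv := v0 (n := n) (i := n - 1 - i) (by omega) (by omega)
        obtain ⟨I, hI, h1, h2⟩ := hit2 (g := v n) (specF n false) (J := 2 * n - 2)
          (i := n - 1 - i) (by omega) (fold_hi (by omega) (by omega))
          (fold_hi (by omega) (by omega)) c0 c1 (α := α) (β := β) (by
            rw [eF_hi (by omega), eF_hi (by omega)]; omega)
        exact ⟨Sum.inr none, I, hI, h1, h2⟩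
    · have c0 := conj_at D hi (by omega) (j' := 1) (by omega) ha
      have c1 := conj_at D hi (by omega) (j' := 0) (by omega) hb
      have hk' := cj_ne D hk
      have h := fun t : Bool => hit2 (g := gam (cj k)) (specF n t) (J := 2 * n - 2)
          (i := n - 1 - i) (by omega) (fold_hi (by omega) (by omega))
          (fold_hi (by omega) (by omega)) c0 c1 (α := α) (β := β)
      have h1 := h false
      have h2 := h true
      have z1 : n ≤ 2 * n - 2 := by clear h1 h2 h; omega
      have z2 : n ≤ 2 * n - 2 + 1 := by clear h1 h2 h; omega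
      rw [eF_hi z1, eF_hi z2] at h1
      rw [eT_hi z1, eT_hi z2] at h2
      by_cases d : (α.val + β.val) % 2 =
          (gam (cj k) (n - 1 - i) 1 + gam (cj k) (n - 1 - i) 0) % 2
      · obtain ⟨I, hI, h3, h4⟩ := h1 (by clear h1 h2 h; omega)
        exact ⟨Sum.inl (⟨cj k, hk'⟩, false), I, hI, h3, h4⟩
      · obtain ⟨I, hI, h3, h4⟩ := h2 (by clear h1 h2 h; omega)
        exact ⟨Sum.inl (⟨cj k, hk'⟩, true), I, hI, h3, h4⟩

theorem adj_all [Fintype S] (hS : Fintype.card S = n) (D : SymProp n L cj b1 b2)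
    (hg : GamProp n cj gam) (hn : n % 2 = 0) (h6 : 6 ≤ n) (hb2 : b2 ≠ b1) (t : Bool)
    (x y : S × Fin 2) (hxy : x ≠ y) :
    ∃ I J, I < 2 * n ∧ J + 1 < 2 * n ∧ L2 n L b1 gam (Sum.inl (⟨b2, hb2⟩, t)) I J = x ∧
      L2 n L b1 gam (Sum.inl (⟨b2, hb2⟩, t)) I (J + 1) = y := by
  obtain ⟨a, α⟩ := x
  obtain ⟨b, β⟩ := y
  have a0 := α.isLt
  have a1 := β.isLt
  by_cases hab : a = b
  · subst hab
    have hβ : α.val ≠ β.val := fun h => hxy (by rw [Fin.ext h])
    obtain ⟨i, hi, h⟩ := surj hS D b2 (n - 1) (by omega) a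
    obtain ⟨I, hI, h1, h2⟩ := hit2 (g := gam b2) (specF n t) (J := n - 1) hi (j0 := n - 1)
      (fold_lo (by omega)) (j1 := n - 1) (fold_hi (by omega) (by omega)) h h
      (α := α) (β := β) (by
        cases t
        · rw [eF_lo (by omega), eF_hi (by omega)]; omega
        · rw [eT_lo (by omega), eT_hi (by omega)]; omega)
    exact ⟨I, n - 1, hI, by omega, h1, h2⟩
  · obtain ⟨i, j, hi, hj, ha, hb⟩ := D.adj2 a b hab
    have c0 := conj_at D hi (by omega) rfl ha
    have c1 := conj_at D hi (by omega) rfl hb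
    have g0 := hg.2 b2 i j hi (by omega)
    have g1 := hg.2 b2 i (j + 1) hi (by omega)
    rw [D.cj2] at c0 c1 g0 g1
    by_cases d : (α.val + β.val) % 2 = (gam b2 i j + gam b2 i (j + 1) + eT n t j +
        eT n t (j + 1)) % 2
    · obtain ⟨I, hI, h1, h2⟩ := hit2 (g := gam b2) (specF n t) (J := j) hi (j0 := j)
        (fold_lo (by omega)) (j1 := j + 1) (fold_lo (by omega)) ha hb
        (α := α) (β := β) d.symm
      exact ⟨I, j, hI, by omega, h1, h2⟩
    · obtain ⟨I, hI, h1, h2⟩ := hit2 (g := gam b2) (specF n t) (J := n + j) (i := n - 1 - i)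
        (by omega) (fold_hi (by omega) (by omega)) (fold_hi (by omega) (by omega)) c0 c1
        (α := α) (β := β) (by
        cases t
        · rw [eF_lo (by omega), eF_lo (by omega)] at d
          rw [eF_hi (by omega), eF_hi (by omega)]; omega
        · rw [eT_lo (by omega), eT_lo (by omega)] at d
          rw [eT_hi (by omega), eT_hi (by omega)]; omega)
      exact ⟨I, n + j, hI, by omega, h1, h2⟩

def SymData (n : ℕ) : Prop :=
  ∃ (S K : Type) (_ : Fintype S) (_ : Fintype K) (L : K → ℕ → ℕ → S) (cj : K → K) (b1 b2 : K),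
    n % 2 = 0 ∧ 6 ≤ n ∧ Fintype.card S = n ∧ Fintype.card K + 1 = n ∧ b1 ≠ b2 ∧
      SymProp n L cj b1 b2

theorem double (n : ℕ) (h : SymData n) : SymData (2 * n) := by
  classical
  obtain ⟨S, K, iS, iK, L, cj, b1, b2, hn, h6, hS, hK, hne, D⟩ := h
  obtain ⟨gam, hg⟩ := exists_gam n hn cj D.cjcj
  refine ⟨S × Fin 2, K2 K b1, inferInstance, inferInstance, L2 n L b1 gam, id,
    Sum.inl (⟨b2, hne.symm⟩, false), Sum.inl (⟨b2, hne.symm⟩, true),
    by omega, by omega, ?_, ?_, by simp, ?_⟩
  · rw [Fintype.card_prod, hS, Fintype.card_fin, Nat.mul_comm]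
  · have h1 : Fintype.card {k : K // k ≠ b1} = Fintype.card K - 1 := by
      rw [Fintype.card_subtype_compl, Fintype.card_subtype_eq]
    rw [Fintype.card_sum, Fintype.card_prod, Fintype.card_bool, Fintype.card_option,
      Fintype.card_bool, h1]
    omega
  · exact
      { inj := fun k I a b hI ha hb => L2_inj D hn h6 k I a b hI ha hb
        sym := fun k I J hI hJ => L2_sym D hg hn h6 k I J hI hJ
        cen := fun k I J hI hJ => L2_cen D hn h6 k I J hI hJ
        cjcj := fun _ => rfl
        cj1 := rfl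
        cj2 := rfl
        tri := tri_all D hg hn h6
        last := last_all hS D hn h6
        adj1 := adj_all hS D hg hn h6 hne.symm false
        adj2 := adj_all hS D hg hn h6 hne.symm true }

end Pool.Agent.H68.TS
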