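import Pool.Agent.H68.TS.V

set_option autoImplicit false

/-! Doubling of families of symmetric latin squares balanced for ordered triads. -/

namespace Pool.Agent.H68.TS

def par (w : ℕ) : Fin 2 := ⟨w % 2, Nat.mod_lt _ (by norm_num)⟩

theorem par_val {a : ℕ} {α : Fin 2} : par a = α ↔ a % 2 = α.val := by
  rw [Fin.ext_iff]; rfl

structure SymProp {S K : Type} (n : ℕ) (L : K → ℕ → ℕ → S) (cj : K → K) (b1 b2 : K) : Prop where
  inj : ∀ k i a b, i < n → a < n → b < n → L k i a = L k i b → a = b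
  sym : ∀ k i j, i < n → j < n → L k i j = L k j i
  cen : ∀ k i j, i < n → j < n → L (cj k) (n - 1 - i) (n - 1 - j) = L k i j
  cjcj : ∀ k, cj (cj k) = k
  cj1 : cj b1 = b1
  cj2 : cj b2 = b2
  tri : ∀ a b c : S, a ≠ b → b ≠ c → a ≠ c → ∃ k i j, i < n ∧ j + 2 < n ∧ L k i j = a ∧
    L k i (j + 1) = b ∧ L k i (j + 2) = c
  last : ∀ a b : S, a ≠ b → ∃ k i, i < n ∧ L k i (n - 2) = a ∧ L k i (n - 1) = b
  adj1 : ∀ a b : S, a ≠ b → ∃ i j, i < n ∧ j + 1 < n ∧ L b1 i j = a ∧ L b1 i (j + 1) = b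
  adj2 : ∀ a b : S, a ≠ b → ∃ i j, i < n ∧ j + 1 < n ∧ L b2 i j = a ∧ L b2 i (j + 1) = b

structure Spec (n : ℕ) (u e : ℕ → ℕ) : Prop where
  lt : ∀ J, J < 2 * n → u J < n
  inj : ∀ a b, a < 2 * n → b < 2 * n → u a = u b → e a % 2 = e b % 2 → a = b
  hit : ∀ i r, i < n → r < 2 → ∃ I, I < 2 * n ∧ u I = i ∧ e I % 2 = r

def LQ {S : Type} (M : ℕ → ℕ → S) (u : ℕ → ℕ) (g : ℕ → ℕ → ℕ) (e : ℕ → ℕ) (I J : ℕ) :
    S × Fin 2 :=
  (M (u I) (u J), par (g (u I) (u J) + e I + e J))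

section lq

variable {S : Type} {M : ℕ → ℕ → S} {u : ℕ → ℕ} {g : ℕ → ℕ → ℕ} {e : ℕ → ℕ} {n : ℕ}

theorem LQ_inj (h : Spec n u e) (hM : ∀ i a b, i < n → a < n → b < n → M i a = M i b → a = b)
    (I a b : ℕ) (hI : I < 2 * n) (ha : a < 2 * n) (hb : b < 2 * n)
    (hab : LQ M u g e I a = LQ M u g e I b) : a = b := by
  simp only [LQ, Prod.mk.injEq] at hab
  obtain ⟨h1, h2⟩ := hab
  have h3 := hM _ _ _ (h.lt I hI) (h.lt a ha) (h.lt b hb) h1
  rw [h3, par_val] at h2
  have h4 : (par (g (u I) (u b) + e I + e b)).val = (g (u I) (u b) + e I + e b) % 2 := rfl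
  rw [h4] at h2
  exact h.inj a b ha hb h3 (by omega)

theorem LQ_sym (h : Spec n u e) (hM : ∀ i j, i < n → j < n → M i j = M j i)
    (hg : ∀ i j, g i j = g j i) (I J : ℕ) (hI : I < 2 * n) (hJ : J < 2 * n) :
    LQ M u g e I J = LQ M u g e J I := by
  simp only [LQ]
  rw [hM _ _ (h.lt I hI) (h.lt J hJ), hg (u I) (u J), Nat.add_right_comm]

theorem hit3 (h : Spec n u e) {i J j0 j1 j2 : ℕ} {a b c : S} {α β γ : Fin 2}
    (hi : i < n) (u0 : u J = j0) (u1 : u (J + 1) = j1)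
    (u2 : u (J + 2) = j2) (h0 : M i j0 = a) (h1 : M i j1 = b) (h2 : M i j2 = c)
    (hp : (g i j0 + g i j1 + e J + e (J + 1)) % 2 = (α.val + β.val) % 2)
    (hq : (g i j1 + g i j2 + e (J + 1) + e (J + 2)) % 2 = (β.val + γ.val) % 2) :
    ∃ I, I < 2 * n ∧ LQ M u g e I J = (a, α) ∧ LQ M u g e I (J + 1) = (b, β) ∧
      LQ M u g e I (J + 2) = (c, γ) := by
  obtain ⟨I, hI, hu, he⟩ := h.hit i ((g i j0 + e J + α.val) % 2) hi (by omega)
  have a1 := α.isLt
  have a2 := β.isLt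
  have a3 := γ.isLt
  refine ⟨I, hI, ?_, ?_, ?_⟩ <;>
    simp only [LQ, hu, u0, u1, u2, Prod.mk.injEq, par_val]
  · exact ⟨h0, by omega⟩
  · exact ⟨h1, by omega⟩
  · exact ⟨h2, by omega⟩

theorem hit2 (h : Spec n u e) {i J j0 j1 : ℕ} {a b : S} {α β : Fin 2}
    (hi : i < n) (u0 : u J = j0) (u1 : u (J + 1) = j1) (h0 : M i j0 = a) (h1 : M i j1 = b)
    (hp : (g i j0 + g i j1 + e J + e (J + 1)) % 2 = (α.val + β.val) % 2) :
    ∃ I, I < 2 * n ∧ LQ M u g e I J = (a, α) ∧ LQ M u g e I (J + 1) = (b, β) := by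
  obtain ⟨I, hI, hu, he⟩ := h.hit i ((g i j0 + e J + α.val) % 2) hi (by omega)
  have a1 := α.isLt
  have a2 := β.isLt
  refine ⟨I, hI, ?_, ?_⟩ <;>
    simp only [LQ, hu, u0, u1, Prod.mk.injEq, par_val]
  · exact ⟨h0, by omega⟩
  · exact ⟨h1, by omega⟩

end lq

def fold (n J : ℕ) : ℕ := if J < n then J else 2 * n - 1 - J

def eT (n : ℕ) (t : Bool) (J : ℕ) : ℕ :=
  if J < n then (if t = true then (J + 1) / 2 else 0) else
    (if t = true then (2 * n - J) / 2 else 0) + 1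

def uB (J : ℕ) : ℕ := 2 * (J / 4) + J % 2

def eB (J : ℕ) : ℕ := (J + 2) / 4

def uC (n J : ℕ) : ℕ :=
  if J < 2 then 0 else if 2 * n ≤ J + 2 then n - 1 else 1 + 2 * ((J - 2) / 4) + J % 2

def eC (n J : ℕ) : ℕ := J / 4 + (if J = 0 ∨ J + 1 = 2 * n then 1 else 0)

theorem specF (n : ℕ) (t : Bool) : Spec n (fold n) (eT n t) := by
  refine ⟨?_, ?_, ?_⟩
  · intro J hJ
    unfold fold; split_ifs <;> omega
  · intro a b ha hb h1 h2
    unfold fold at h1
    unfold eT at h2
    cases t <;> simp only [if_true, Bool.false_eq_true, if_false] at h2 <;>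
      split_ifs at h1 h2 <;> omega
  · intro i r hi hr
    by_cases h : eT n t i % 2 = r
    · exact ⟨i, by omega, by unfold fold; rw [if_pos hi], h⟩
    · refine ⟨2 * n - 1 - i, by omega, ?_, ?_⟩
      · unfold fold; split_ifs <;> omega
      · unfold eT at h ⊢
        cases t <;> simp only [if_true, Bool.false_eq_true, if_false] at h ⊢ <;>
          split_ifs at h ⊢ <;> omega

theorem specB {n : ℕ} (hn : n % 2 = 0) : Spec n uB eB := by
  refine ⟨?_, ?_, ?_⟩
  · intro J hJ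
    unfold uB; omega
  · intro a b ha hb h1 h2
    unfold uB at h1
    unfold eB at h2
    omega
  · intro i r hi hr
    unfold uB eB
    rcases Nat.mod_two_eq_zero_or_one i with h | h
    · by_cases h1 : (2 * i + 2) / 4 % 2 = r
      · exact ⟨2 * i, by omega, by omega, h1⟩
      · exact ⟨2 * i + 2, by omega, by omega, by omega⟩
    · by_cases h1 : (2 * i + 1) / 4 % 2 = r
      · exact ⟨2 * i - 1, by omega, by omega, by omega⟩
      · exact ⟨2 * i + 1, by omega, by omega, by omega⟩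

theorem specC {n : ℕ} (hn : n % 2 = 0) (h6 : 6 ≤ n) : Spec n (uC n) (eC n) := by
  refine ⟨?_, ?_, ?_⟩
  · intro J hJ
    unfold uC; split_ifs <;> omega
  · intro a b ha hb h1 h2
    unfold uC at h1
    unfold eC at h2
    split_ifs at h1 h2 <;> omega
  · intro i r hi hr
    rcases Nat.eq_zero_or_pos i with h0 | h0
    · by_cases h1 : r = 1
      · refine ⟨0, by omega, ?_, ?_⟩
        · unfold uC; rw [if_pos (by omega), h0]
        · unfold eC; rw [if_pos (Or.inl rfl)]; omega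
      · refine ⟨1, by omega, ?_, ?_⟩
        · unfold uC; rw [if_pos (by omega), h0]
        · unfold eC; rw [if_neg (by omega)]; omega
    · by_cases hl : i + 1 = n
      · by_cases h1 : (2 * n - 2) / 4 % 2 = r
        · refine ⟨2 * n - 2, by omega, ?_, ?_⟩
          · unfold uC; rw [if_neg (by omega), if_pos (by omega)]; omega
          · unfold eC; rw [if_neg (by omega)]; omega
        · refine ⟨2 * n - 1, by omega, ?_, ?_⟩
          · unfold uC; rw [if_neg (by omega), if_pos (by omega)]; omega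
          · unfold eC; rw [if_pos (by omega)]; omega
      · rcases Nat.mod_two_eq_zero_or_one i with h | h
        · by_cases h1 : (2 * i - 1) / 4 % 2 = r
          · refine ⟨2 * i - 1, by omega, ?_, ?_⟩
            · unfold uC; rw [if_neg (by omega), if_neg (by omega)]; omega
            · unfold eC; rw [if_neg (by omega)]; omega
          · refine ⟨2 * i + 1, by omega, ?_, ?_⟩
            · unfold uC; rw [if_neg (by omega), if_neg (by omega)]; omega
            · unfold eC; rw [if_neg (by omega)]; omega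
        · by_cases h1 : (2 * i) / 4 % 2 = r
          · refine ⟨2 * i, by omega, ?_, ?_⟩
            · unfold uC; rw [if_neg (by omega), if_neg (by omega)]; omega
            · unfold eC; rw [if_neg (by omega)]; omega
          · refine ⟨2 * i + 2, by omega, ?_, ?_⟩
            · unfold uC; rw [if_neg (by omega), if_neg (by omega)]; omega
            · unfold eC; rw [if_neg (by omega)]; omega

section cen

variable {S : Type} {M : ℕ → ℕ → S} {g : ℕ → ℕ → ℕ} {n : ℕ}

theorem cenF (t : Bool) (I J : ℕ) (hI : I < 2 * n) (hJ : J < 2 * n) :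
    LQ M (fold n) g (eT n t) (2 * n - 1 - I) (2 * n - 1 - J) = LQ M (fold n) g (eT n t) I J := by
  have h1 : ∀ I, I < 2 * n → fold n (2 * n - 1 - I) = fold n I := by
    intro I hI
    unfold fold; split_ifs <;> omega
  have h2 : ∀ I, I < 2 * n → eT n t (2 * n - 1 - I) % 2 = (eT n t I + 1) % 2 := by
    intro I hI
    unfold eT
    cases t <;> simp only [if_true, Bool.false_eq_true, if_false] <;> split_ifs <;> omega
  have a1 := h2 I hI
  have a2 := h2 J hJ
  simp only [LQ, h1 I hI, h1 J hJ, Prod.mk.injEq, true_and]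
  rw [par_val]
  change _ = (g (fold n I) (fold n J) + eT n t I + eT n t J) % 2
  omega

theorem cenU {u e : ℕ → ℕ} {c : ℕ} (h : Spec n u e)
    (hu : ∀ J, J < 2 * n → u (2 * n - 1 - J) = n - 1 - u J)
    (he : ∀ J, J < 2 * n → (e (2 * n - 1 - J) + e J) % 2 = c)
    (hM : ∀ i j, i < n → j < n → M (n - 1 - i) (n - 1 - j) = M i j)
    (hg : ∀ i j, i < n → j < n → g (n - 1 - i) (n - 1 - j) % 2 = g i j % 2)
    (I J : ℕ) (hI : I < 2 * n) (hJ : J < 2 * n) :
    LQ M u g e (2 * n - 1 - I) (2 * n - 1 - J) = LQ M u g e I J := by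
  have a1 := he I hI
  have a2 := he J hJ
  have a3 := hg _ _ (h.lt I hI) (h.lt J hJ)
  simp only [LQ, hu I hI, hu J hJ, hM _ _ (h.lt I hI) (h.lt J hJ), Prod.mk.injEq, true_and]
  rw [par_val]
  change _ = (g (u I) (u J) + e I + e J) % 2
  omega

theorem uB_rev (hn : n % 2 = 0) (J : ℕ) (hJ : J < 2 * n) : uB (2 * n - 1 - J) = n - 1 - uB J := by
  unfold uB; omega

theorem eB_rev (hn : n % 2 = 0) (J : ℕ) (hJ : J < 2 * n) :
    (eB (2 * n - 1 - J) + eB J) % 2 = n / 2 % 2 := by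
  unfold eB; omega

theorem uC_rev (hn : n % 2 = 0) (h6 : 6 ≤ n) (J : ℕ) (hJ : J < 2 * n) :
    uC n (2 * n - 1 - J) = n - 1 - uC n J := by
  unfold uC; split_ifs <;> omega

theorem eC_rev (hn : n % 2 = 0) (h6 : 6 ≤ n) (J : ℕ) (hJ : J < 2 * n) :
    (eC n (2 * n - 1 - J) + eC n J) % 2 = (n / 2 + 1) % 2 := by
  unfold eC; split_ifs <;> omega

end cen

end Pool.Agent.H68.TS
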