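import Pool.Agent.H68.TS.Dbl

set_option autoImplicit false

/-! The doubled family. -/

namespace Pool.Agent.H68.TS

/-- sign functions of the squares: properties -/
def GamProp {K : Type} (n : ℕ) (cj : K → K) (gam : K → ℕ → ℕ → ℕ) : Prop :=
  (∀ k i j, gam k i j = gam k j i) ∧
  ∀ k i j, i < n → j < n →
    (gam k i j + gam (cj k) (n - 1 - i) (n - 1 - j)) % 2 = (1 + i + j) % 2

theorem exists_gam {K : Type} [Fintype K] (n : ℕ) (hn : n % 2 = 0) (cj : K → K)
    (hcj : ∀ k, cj (cj k) = k) : ∃ gam, GamProp n cj gam := by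
  classical
  let e := Fintype.equivFin K
  refine ⟨fun k i j => if cj k = k then (if n ≤ i + j then i + j + 1 else 0) else
    if e k < e (cj k) then 0 else 1 + i + j, ?_, ?_⟩
  · intro k i j
    simp only [Nat.add_comm j i]
    split_ifs <;> omega
  · intro k i j hi hj
    by_cases h : cj k = k
    · simp only [h, if_true]
      split_ifs <;> omega
    · have h' : ¬ (k = cj k) := fun hh => h hh.symm
      have hne : e k ≠ e (cj k) := fun hh => h (e.injective hh).symm
      simp only [if_neg h, hcj, if_neg h']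
      by_cases h1 : e k < e (cj k)
      · have h2 : ¬ (e (cj k) < e k) := not_lt.2 h1.le
        rw [if_pos h1, if_neg h2]
        omega
      · have h2 : e (cj k) < e k := lt_of_le_of_ne (not_lt.1 h1) hne.symm
        rw [if_neg h1, if_pos h2]
        omega

/-- the sign function of the third special square -/
def gC (n i j : ℕ) : ℕ := v n i j + v n (n - 1 - i) (n - 1 - j)

abbrev K2 (K : Type) (b1 : K) : Type := ({k : K // k ≠ b1} × Bool) ⊕ Option Bool

variable {S K : Type} {n : ℕ} {L : K → ℕ → ℕ → S} {cj : K → K} {b1 b2 : K}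
  {gam : K → ℕ → ℕ → ℕ}

def L2 (n : ℕ) (L : K → ℕ → ℕ → S) (b1 : K) (gam : K → ℕ → ℕ → ℕ) : K2 K b1 → ℕ → ℕ → S × Fin 2
  | Sum.inl (k, t) => LQ (L k.1) (fold n) (gam k.1) (eT n t)
  | Sum.inr none => LQ (L b1) (fold n) (v n) (eT n false)
  | Sum.inr (some false) => LQ (L b1) uB (fun _ _ => 0) eB
  | Sum.inr (some true) => LQ (L b1) (uC n) (gC n) (eC n)

theorem L2_inj (D : SymProp n L cj b1 b2) (hn : n % 2 = 0) (h6 : 6 ≤ n) (k : K2 K b1)
    (I a b : ℕ) (hI : I < 2 * n) (ha : a < 2 * n) (hb : b < 2 * n)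
    (hab : L2 n L b1 gam k I a = L2 n L b1 gam k I b) : a = b := by
  rcases k with ⟨k, t⟩ | _ | _ | _
  · exact LQ_inj (specF n t) (D.inj k.1) I a b hI ha hb hab
  · exact LQ_inj (specF n false) (D.inj b1) I a b hI ha hb hab
  · exact LQ_inj (g := fun _ _ => 0) (specB hn) (D.inj b1) I a b hI ha hb hab
  · exact LQ_inj (specC hn h6) (D.inj b1) I a b hI ha hb hab

theorem gC_sym (n i j : ℕ) : gC n i j = gC n j i := by
  unfold gC; rw [v_sym n i j, v_sym n (n - 1 - i) (n - 1 - j)]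

theorem L2_sym (D : SymProp n L cj b1 b2) (hg : GamProp n cj gam) (hn : n % 2 = 0) (h6 : 6 ≤ n)
    (k : K2 K b1) (I J : ℕ) (hI : I < 2 * n) (hJ : J < 2 * n) :
    L2 n L b1 gam k I J = L2 n L b1 gam k J I := by
  rcases k with ⟨k, t⟩ | _ | _ | _
  · exact LQ_sym (specF n t) (D.sym k.1) (hg.1 k.1) I J hI hJ
  · exact LQ_sym (specF n false) (D.sym b1) (v_sym n) I J hI hJ
  · exact LQ_sym (g := fun _ _ => 0) (specB hn) (D.sym b1) (fun _ _ => rfl) I J hI hJ
  · exact LQ_sym (specC hn h6) (D.sym b1) (gC_sym n) I J hI hJ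

theorem L2_cen (D : SymProp n L cj b1 b2) (hn : n % 2 = 0) (h6 : 6 ≤ n)
    (k : K2 K b1) (I J : ℕ) (hI : I < 2 * n) (hJ : J < 2 * n) :
    L2 n L b1 gam k (2 * n - 1 - I) (2 * n - 1 - J) = L2 n L b1 gam k I J := by
  have hM : ∀ i j, i < n → j < n → L b1 (n - 1 - i) (n - 1 - j) = L b1 i j := by
    intro i j hi hj
    have := D.cen b1 i j hi hj
    rwa [D.cj1] at this
  rcases k with ⟨k, t⟩ | _ | _ | _
  · exact cenF t I J hI hJ
  · exact cenF false I J hI hJ
  · exact cenU (g := fun _ _ => 0) (specB hn) (uB_rev hn) (eB_rev hn) hM (fun _ _ _ _ => rfl)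
      I J hI hJ
  · refine cenU (specC hn h6) (uC_rev hn h6) (eC_rev hn h6) hM ?_ I J hI hJ
    intro i j hi hj
    have e1 : n - 1 - (n - 1 - i) = i := by omega
    have e2 : n - 1 - (n - 1 - j) = j := by omega
    unfold gC
    rw [e1, e2, Nat.add_comm]

theorem cov_rev (D : SymProp n L cj b1 b2) (hn : n % 2 = 0) (h6 : 6 ≤ n) {x y z : S × Fin 2}
    (h : ∃ k I J, I < 2 * n ∧ J + 2 < 2 * n ∧ L2 n L b1 gam k I J = z ∧
      L2 n L b1 gam k I (J + 1) = y ∧ L2 n L b1 gam k I (J + 2) = x) :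
    ∃ k I J, I < 2 * n ∧ J + 2 < 2 * n ∧ L2 n L b1 gam k I J = x ∧
      L2 n L b1 gam k I (J + 1) = y ∧ L2 n L b1 gam k I (J + 2) = z := by
  obtain ⟨k, I, J, hI, hJ, h0, h1, h2⟩ := h
  refine ⟨k, 2 * n - 1 - I, 2 * n - 3 - J, by omega, by omega, ?_, ?_, ?_⟩
  · rw [← h2, ← L2_cen D hn h6 k I (J + 2) hI (by omega)]
    congr 1; omega
  · rw [← h1, ← L2_cen D hn h6 k I (J + 1) hI (by omega)]
    congr 1; omega
  · rw [← h0, ← L2_cen D hn h6 k I J hI (by omega)]
    congr 1; omega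

theorem surj [Fintype S] (hS : Fintype.card S = n) (D : SymProp n L cj b1 b2) (k : K) (j : ℕ)
    (hj : j < n) (s : S) : ∃ i, i < n ∧ L k i j = s := by
  have h1 : Function.Injective fun i : Fin n => L k j i := by
    intro a b hab
    exact Fin.ext (D.inj k j a b hj a.isLt b.isLt hab)
  have h2 : Function.Bijective fun i : Fin n => L k j i := by
    rw [Fintype.bijective_iff_injective_and_card]
    exact ⟨h1, by rw [hS, Fintype.card_fin]⟩
  obtain ⟨i, hi⟩ := h2.2 s
  exact ⟨i, i.isLt, by rw [D.sym k i j i.isLt hj]; exact hi⟩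

/-! values of the index and sign functions -/

theorem fold_lo {n J : ℕ} (h : J < n) : fold n J = J := by unfold fold; rw [if_pos h]

theorem fold_hi {n J j : ℕ} (h : n ≤ J) (hj : 2 * n - 1 - J = j) : fold n J = j := by
  unfold fold; rw [if_neg (by omega), hj]

theorem eF_lo {n J : ℕ} (h : J < n) : eT n false J = 0 := by
  unfold eT; rw [if_pos h]; rfl

theorem eF_hi {n J : ℕ} (h : n ≤ J) : eT n false J = 1 := by
  unfold eT; rw [if_neg (by omega)]; rfl

theorem eT_lo {n J : ℕ} (h : J < n) : eT n true J = (J + 1) / 2 := by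
  unfold eT; rw [if_pos h]; rfl

theorem eT_hi {n J : ℕ} (h : n ≤ J) : eT n true J = (2 * n - J) / 2 + 1 := by
  unfold eT; rw [if_neg (by omega)]; rfl

theorem uC_mid {n J j : ℕ} (h : 2 ≤ J) (h' : J + 2 < 2 * n) (hj : 1 + 2 * ((J - 2) / 4) + J % 2 = j) :
    uC n J = j := by
  unfold uC; rw [if_neg (by omega), if_neg (by omega), hj]

theorem uC_lo {n J : ℕ} (h : J < 2) : uC n J = 0 := by
  unfold uC; rw [if_pos h]

theorem uC_hi {n J : ℕ} (h : 2 ≤ J) (h' : 2 * n ≤ J + 2) : uC n J = n - 1 := by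
  unfold uC; rw [if_neg (by omega), if_pos h']

theorem eC_mid {n J : ℕ} (h : 1 ≤ J) (h' : J + 1 < 2 * n) : eC n J = J / 4 := by
  unfold eC; rw [if_neg (by omega)]; rfl

theorem eC_0 (n : ℕ) : eC n 0 = 1 := by
  unfold eC; rw [if_pos (Or.inl rfl)]

theorem eC_end {n J : ℕ} (h : J + 1 = 2 * n) : eC n J = J / 4 + 1 := by
  unfold eC; rw [if_pos (Or.inr h)]

end Pool.Agent.H68.TS
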