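import Mathlib

set_option autoImplicit false

/-! The symmetric sign function `v` on `{0, …, n - 1} ^ 2`. -/

namespace Pool.Agent.H68.TS

def phi (n s : ℕ) : ℕ :=
  if s < n then (if (s + 2 * n) % 3 = 2 then 1 else 0) else
    (if (s + 2 * n) % 3 = 1 then 0 else 1)

def v (n i j : ℕ) : ℕ :=
  if i = 0 then (if j = 0 then phi n 2 else 1 - phi n (j + 1)) else
    if j = 0 then 1 - phi n (i + 1) else
      if i + 1 = n ∧ j + 1 = n then 0 else phi n (i + j)

theorem phi_le (n s : ℕ) : phi n s ≤ 1 := by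
  unfold phi; split_ifs <;> omega

theorem v_sym (n i j : ℕ) : v n i j = v n j i := by
  unfold v
  rw [Nat.add_comm j i]
  split_ifs <;> first | rfl | omega

theorem v_int {n i j : ℕ} (hi : 1 ≤ i) (hj : 1 ≤ j) (h : ¬ (i + 1 = n ∧ j + 1 = n)) :
    v n i j = phi n (i + j) := by
  unfold v
  rw [if_neg (by omega), if_neg (by omega), if_neg h]

theorem v_i0 {n i : ℕ} (hi : 1 ≤ i) : v n i 0 = 1 - phi n (i + 1) := by
  unfold v
  rw [if_neg (by omega), if_pos rfl]

theorem v_0j {n j : ℕ} (hj : 1 ≤ j) : v n 0 j = 1 - phi n (j + 1) := by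
  unfold v
  rw [if_pos rfl, if_neg (by omega)]

theorem v_00 (n : ℕ) : v n 0 0 = phi n 2 := by
  unfold v
  rw [if_pos rfl, if_pos rfl]

theorem v_corner {n i j : ℕ} (hi : i + 1 = n) (hj : j + 1 = n) (h : 2 ≤ n) : v n i j = 0 := by
  unfold v
  rw [if_neg (by omega), if_neg (by omega), if_pos ⟨hi, hj⟩]

/-- the value of `phi` in a form convenient for `omega` -/
theorem phi_spec (n s : ℕ) : (s < n ∧ (s + 2 * n) % 3 = 2 ∧ phi n s = 1) ∨
    (s < n ∧ (s + 2 * n) % 3 ≠ 2 ∧ phi n s = 0) ∨
    (n ≤ s ∧ (s + 2 * n) % 3 = 1 ∧ phi n s = 0) ∨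
    (n ≤ s ∧ (s + 2 * n) % 3 ≠ 1 ∧ phi n s = 1) := by
  unfold phi; split_ifs <;> omega

theorem pair_spec (n s t : ℕ) (h : s + t + 2 = 2 * n) :
    ((s + 2 * n) % 3 = 2 ∧ phi n s = 1 ∧ phi n t = 1) ∨
    (s < n ∧ (s + 2 * n) % 3 = 0 ∧ phi n s = 0 ∧ phi n t = 0) ∨
    (s < n ∧ (s + 2 * n) % 3 = 1 ∧ phi n s = 0 ∧ phi n t = 1) ∨
    (n ≤ s ∧ (s + 2 * n) % 3 = 1 ∧ phi n s = 0 ∧ phi n t = 0) ∨
    (n ≤ s ∧ (s + 2 * n) % 3 = 0 ∧ phi n s = 1 ∧ phi n t = 0) := by
  have h1 := phi_spec n s
  have h2 := phi_spec n t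
  omega

theorem v_int' {n i j : ℕ} (s : ℕ) (hs : i + j = s) (hi : 1 ≤ i) (hj : 1 ≤ j)
    (h : ¬ (i + 1 = n ∧ j + 1 = n)) : v n i j = phi n s := by
  rw [v_int hi hj h, hs]

theorem v_i0' {n i j : ℕ} (s : ℕ) (hs : i + 1 = s) (hi : 1 ≤ i) (hj : j = 0) :
    v n i j = 1 - phi n s := by
  rw [hj, v_i0 hi, hs]

theorem v_0j' {n i j : ℕ} (s : ℕ) (hs : j + 1 = s) (hj : 1 ≤ j) (hi : i = 0) :
    v n i j = 1 - phi n s := by
  rw [hi, v_0j hj, hs]

theorem v0 {n i : ℕ} (hn : 4 ≤ n) (hi : i < n) : (v n i 0 + v n i 1) % 2 = 1 := by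
  rcases Nat.eq_zero_or_pos i with h | h
  · subst h
    rw [v_00, v_0j' 2 rfl le_rfl rfl]
    have := phi_le n 2
    omega
  · rw [v_i0 h, v_int h le_rfl (by omega)]
    have := phi_le n (i + 1)
    omega

def Good (p q p' q' : ℕ) : Prop :=
  ¬ (p % 2 = 0 ∧ q % 2 = 0) ∧ ¬ (p' % 2 = 0 ∧ q' % 2 = 0) ∧ ¬ (p % 2 = p' % 2 ∧ q % 2 = q' % 2)

theorem v_tri_row0 {n j : ℕ} (hn : 6 ≤ n) (hev : n % 2 = 0) (hj : j + 2 < n) :
    Good (v n 0 j + v n 0 (j + 1)) (v n 0 (j + 1) + v n 0 (j + 2))
      (v n (n - 1) (n - 1 - j) + v n (n - 1) (n - 1 - (j + 1)))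
      (v n (n - 1) (n - 1 - (j + 1)) + v n (n - 1) (n - 1 - (j + 2))) := by
  unfold Good
  rcases Nat.eq_zero_or_pos j with h1 | h1
  · subst h1
    rw [v_00, v_0j' 2 rfl (by omega) rfl, v_0j' 3 rfl (by omega) rfl,
      v_corner (by omega) (by omega) (by omega),
      v_int' (2 * n - 3) (by omega) (by omega) (by omega) (by omega),
      v_int' (2 * n - 4) (by omega) (by omega) (by omega) (by omega)]
    have a1 := phi_spec n 2
    have a2 := phi_spec n 3
    have a3 := phi_spec n (2 * n - 3)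
    have a4 := phi_spec n (2 * n - 4)
    omega
  · by_cases h2 : j + 3 = n
    · rw [v_0j' (n - 2) (by omega) (by omega) rfl, v_0j' (n - 1) (by omega) (by omega) rfl,
        v_0j' n (by omega) (by omega) rfl,
        v_int' (n + 1) (by omega) (by omega) (by omega) (by omega),
        v_int' n (by omega) (by omega) (by omega) (by omega),
        v_i0' n (by omega) (by omega) (by omega)]
      have a1 := phi_spec n (n - 2)
      have a2 := phi_spec n (n - 1)
      have a3 := phi_spec n n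
      have a4 := phi_spec n (n + 1)
      omega
    · rw [v_0j' (j + 1) (by omega) (by omega) rfl, v_0j' (j + 2) (by omega) (by omega) rfl,
        v_0j' (j + 3) (by omega) (by omega) rfl,
        v_int' (2 * n - 2 - j) (by omega) (by omega) (by omega) (by omega),
        v_int' (2 * n - 3 - j) (by omega) (by omega) (by omega) (by omega),
        v_int' (2 * n - 4 - j) (by omega) (by omega) (by omega) (by omega)]
      have a1 := pair_spec n j (2 * n - 2 - j) (by omega)
      have a2 := pair_spec n (j + 1) (2 * n - 3 - j) (by omega)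
      have a3 := pair_spec n (j + 2) (2 * n - 4 - j) (by omega)
      have a4 := phi_spec n (j + 3)
      rcases a1 with a1 | a1 | a1 | a1 | a1 <;> rcases a2 with a2 | a2 | a2 | a2 | a2 <;>
        first | (exfalso; omega) | omega

theorem v_tri_mid {n i j : ℕ} (hn : 6 ≤ n) (hev : n % 2 = 0) (hi : 1 ≤ i) (hi' : i + 1 < n)
    (hj : j + 2 < n) :
    Good (v n i j + v n i (j + 1)) (v n i (j + 1) + v n i (j + 2))
      (v n (n - 1 - i) (n - 1 - j) + v n (n - 1 - i) (n - 1 - (j + 1)))
      (v n (n - 1 - i) (n - 1 - (j + 1)) + v n (n - 1 - i) (n - 1 - (j + 2))) := by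
  unfold Good
  rcases Nat.eq_zero_or_pos j with h1 | h1
  · rw [v_i0' (i + 1) rfl hi h1, v_int' (i + 1) (by omega) hi (by omega) (by omega),
      v_int' (i + 2) (by omega) hi (by omega) (by omega),
      v_int' (2 * n - 2 - i) (by omega) (by omega) (by omega) (by omega),
      v_int' (2 * n - 3 - i) (by omega) (by omega) (by omega) (by omega),
      v_int' (2 * n - 4 - i) (by omega) (by omega) (by omega) (by omega)]
    have a1 := pair_spec n i (2 * n - 2 - i) (by omega)
    have a2 := pair_spec n (i + 1) (2 * n - 3 - i) (by omega)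
    have a3 := pair_spec n (i + 2) (2 * n - 4 - i) (by omega)
    rcases a1 with a1 | a1 | a1 | a1 | a1 <;> rcases a2 with a2 | a2 | a2 | a2 | a2 <;>
      omega
  · by_cases h2 : j + 3 = n
    · rw [v_int' (i + n - 3) (by omega) hi (by omega) (by omega),
        v_int' (i + n - 2) (by omega) hi (by omega) (by omega),
        v_int' (i + n - 1) (by omega) hi (by omega) (by omega),
        v_int' (n + 1 - i) (by omega) (by omega) (by omega) (by omega),
        v_int' (n - i) (by omega) (by omega) (by omega) (by omega),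
        v_i0' (n - i) (by omega) (by omega) (by omega)]
      have a1 := pair_spec n (i + n - 3) (n + 1 - i) (by omega)
      have a2 := pair_spec n (i + n - 2) (n - i) (by omega)
      have a3 := pair_spec n (i + n - 1) (n - 1 - i) (by omega)
      rcases a1 with a1 | a1 | a1 | a1 | a1 <;> rcases a2 with a2 | a2 | a2 | a2 | a2 <;>
        omega
    · rw [v_int' (i + j) (by omega) hi (by omega) (by omega),
        v_int' (i + j + 1) (by omega) hi (by omega) (by omega),
        v_int' (i + j + 2) (by omega) hi (by omega) (by omega),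
        v_int' (2 * n - 2 - i - j) (by omega) (by omega) (by omega) (by omega),
        v_int' (2 * n - 3 - i - j) (by omega) (by omega) (by omega) (by omega),
        v_int' (2 * n - 4 - i - j) (by omega) (by omega) (by omega) (by omega)]
      have a1 := pair_spec n (i + j) (2 * n - 2 - i - j) (by omega)
      have a2 := pair_spec n (i + j + 1) (2 * n - 3 - i - j) (by omega)
      have a3 := pair_spec n (i + j + 2) (2 * n - 4 - i - j) (by omega)
      rcases a1 with a1 | a1 | a1 | a1 | a1 <;> rcases a2 with a2 | a2 | a2 | a2 | a2 <;>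
        omega

theorem v_tri {n i j : ℕ} (hn : 6 ≤ n) (hev : n % 2 = 0) (hi : i < n) (hj : j + 2 < n) :
    Good (v n i j + v n i (j + 1)) (v n i (j + 1) + v n i (j + 2))
      (v n (n - 1 - i) (n - 1 - j) + v n (n - 1 - i) (n - 1 - (j + 1)))
      (v n (n - 1 - i) (n - 1 - (j + 1)) + v n (n - 1 - i) (n - 1 - (j + 2))) := by
  rcases Nat.eq_zero_or_pos i with h0 | h0
  · subst h0
    exact v_tri_row0 hn hev hj
  · by_cases h1 : i + 1 < n
    · exact v_tri_mid hn hev h0 h1 hj
    · have h := v_tri_row0 (n := n) (j := n - 3 - j) hn hev (by omega)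
      have e0 : n - 1 - i = 0 := by omega
      have e1 : n - 3 - j + 1 = n - 1 - (j + 1) := by omega
      have e2 : n - 3 - j + 2 = n - 1 - j := by omega
      have e3 : n - 3 - j = n - 1 - (j + 2) := by omega
      have e4 : n - 1 - (n - 1 - (j + 1)) = j + 1 := by omega
      have e5 : n - 1 - (n - 1 - j) = j := by omega
      have e6 : n - 1 - (n - 1 - (j + 2)) = j + 2 := by omega
      have e7 : i = n - 1 := by omega
      rw [e1, e2, e3, e4, e5, e6] at h
      rw [e0, e7]
      unfold Good at h ⊢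
      omega

end Pool.Agent.H68.TS
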